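import Pool.Agent.Helper99.SPC.LinTree
import Pool.Agent.Helper84.Tet.Defs

/-!
# The fourteen alternatives of `OutD` as linear forms
-/

set_option autoImplicit false

namespace Pool.Agent.Helper99.SPC

open Pool.Agent.Helper84.Tet (OutD)

/-- sum of linear forms -/
def ladd : List ℤ → List ℤ → List ℤ
  | a :: A, b :: B => (a + b) :: ladd A B
  | [], B => B
  | A, [] => A

/-- negative of a linear form -/
def lneg : List ℤ → List ℤ
  | a :: A => (-a) :: lneg A
  | [] => []

theorem lin_nil (X : List ℝ) : lin [] X = 0 := by simp [lin]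

theorem lin_ladd : ∀ (A B : List ℤ) (X : List ℝ), lin (ladd A B) X = lin A X + lin B X
  | a :: A, b :: B, x :: xs => by
      simp only [ladd, lin, lin_ladd A B xs]; push_cast; ring
  | a :: A, b :: B, [] => by simp [ladd, lin]
  | [], B, xs => by simp [ladd, lin_nil]
  | a :: A, [], xs => by simp [ladd, lin_nil]

theorem lin_lneg : ∀ (A : List ℤ) (X : List ℝ), lin (lneg A) X = -lin A X
  | a :: A, x :: xs => by simp only [lneg, lin, lin_lneg A xs]; push_cast; ring
  | a :: A, [] => by simp [lneg, lin]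
  | [], xs => by simp [lneg, lin_nil]

/-- the constant `-4` -/
def c4 : List ℤ := [0, 0, 0, 0, 0, 0, 0, 0, 0, -4]

/-- the constant `-8` -/
def c8 : List ℤ := [0, 0, 0, 0, 0, 0, 0, 0, 0, -8]

theorem lin_c4 (a b c x u y v z w : ℝ) : lin c4 [a, b, c, x, u, y, v, z, w, 1] = -4 := by
  simp [c4, lin]

theorem lin_c8 (a b c x u y v z w : ℝ) : lin c8 [a, b, c, x, u, y, v, z, w, 1] = -8 := by
  simp [c8, lin]

/-- the alternatives of `OutD` at half of the forms -/
def outForms (fx fy fz : List ℤ) : List (List ℤ) :=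
  [ladd fx c4, ladd (lneg fx) c4, ladd fy c4, ladd (lneg fy) c4, ladd fz c4, ladd (lneg fz) c4,
    ladd (ladd fx (ladd fy fz)) c8, ladd (ladd (lneg fx) (ladd fy fz)) c8,
    ladd (ladd fx (ladd (lneg fy) fz)) c8, ladd (ladd (lneg fx) (ladd (lneg fy) fz)) c8,
    ladd (ladd fx (ladd fy (lneg fz))) c8, ladd (ladd (lneg fx) (ladd fy (lneg fz))) c8,
    ladd (ladd fx (ladd (lneg fy) (lneg fz))) c8, ladd (ladd (lneg fx) (ladd (lneg fy) (lneg fz))) c8]

theorem outForms_spec {fx fy fz : List ℤ} {a b c x u y v z w p q r : ℝ} (h : OutD (p / 2) (q / 2) (r / 2))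
    (hp : p = lin fx [a, b, c, x, u, y, v, z, w, 1]) (hq : q = lin fy [a, b, c, x, u, y, v, z, w, 1])
    (hr : r = lin fz [a, b, c, x, u, y, v, z, w, 1]) :
    ∃ f ∈ outForms fx fy fz, 0 ≤ lin f [a, b, c, x, u, y, v, z, w, 1] := by
  subst hp hq hr
  unfold outForms
  simp only [List.exists_mem_cons_iff, lin_ladd, lin_lneg, lin_c4, lin_c8]
  rcases h.alts with h | h | h | h | h | h | h | h | h | h | h | h | h | h
  · exact Or.inl (by linarith only [h])
  · exact Or.inr (Or.inl (by linarith only [h]))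
  · exact Or.inr (Or.inr (Or.inl (by linarith only [h])))
  · exact Or.inr (Or.inr (Or.inr (Or.inl (by linarith only [h]))))
  · exact Or.inr (Or.inr (Or.inr (Or.inr (Or.inl (by linarith only [h])))))
  · exact Or.inr (Or.inr (Or.inr (Or.inr (Or.inr (Or.inl (by linarith only [h]))))))
  · exact Or.inr (Or.inr (Or.inr (Or.inr (Or.inr (Or.inr (Or.inl (by linarith only [h])))))))
  · exact Or.inr (Or.inr (Or.inr (Or.inr (Or.inr (Or.inr (Or.inr (Or.inl (by linarith only [h]))))))))
  · exact Or.inr (Or.inr (Or.inr (Or.inr (Or.inr (Or.inr (Or.inr (Or.inr (Or.inl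
      (by linarith only [h])))))))))
  · exact Or.inr (Or.inr (Or.inr (Or.inr (Or.inr (Or.inr (Or.inr (Or.inr (Or.inr (Or.inl
      (by linarith only [h]))))))))))
  · exact Or.inr (Or.inr (Or.inr (Or.inr (Or.inr (Or.inr (Or.inr (Or.inr (Or.inr (Or.inr (Or.inl
      (by linarith only [h])))))))))))
  · exact Or.inr (Or.inr (Or.inr (Or.inr (Or.inr (Or.inr (Or.inr (Or.inr (Or.inr (Or.inr (Or.inr (Or.inl
      (by linarith only [h]))))))))))))
  · exact Or.inr (Or.inr (Or.inr (Or.inr (Or.inr (Or.inr (Or.inr (Or.inr (Or.inr (Or.inr (Or.inr (Or.inr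
      (Or.inl (by linarith only [h])))))))))))))
  · exact Or.inr (Or.inr (Or.inr (Or.inr (Or.inr (Or.inr (Or.inr (Or.inr (Or.inr (Or.inr (Or.inr (Or.inr
      (Or.inr (Or.inl (by linarith only [h]))))))))))))))

theorem holds_nn {f : List ℤ} {X : List ℝ} (h : 0 ≤ lin f X) : Con.holds X (false, f) :=
  ⟨h, fun hf => absurd hf (by simp)⟩

theorem holds_pos {f : List ℤ} {X : List ℝ} (h : 0 < lin f X) : Con.holds X (true, f) :=
  ⟨h.le, fun _ => h⟩

end Pool.Agent.Helper99.SPC
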