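import Mathlib

/-!
# Sum of products certificates

Kernel-evaluated certificates for polynomial inequalities of degree three in nine variables: the
polynomial is a nonnegative integer combination of products of three linear forms which are
nonnegative by hypothesis, and of products of such a form with the square of a linear form.
Everything is homogeneous; the constant `1` is the value of the tenth variable.

The polynomial identity is checked by Kronecker substitution: both sides are evaluated in `ℕ` at the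
point `(B ^ 0, B ^ 1, B ^ 4, B ^ 13, ...)`, where the exponents have distinct sums of three terms and
`B` exceeds the sum of the coefficients. Signed numbers are pairs of natural numbers.
-/

set_option autoImplicit false

namespace Pool.Agent.Helper99.SPC

/-- the operations of a semiring -/
structure Ops (R : Type) where
  add : R → R → R
  mul : R → R → R
  nat : ℕ → R

section defs

variable {R : Type} (o : Ops R)

/-- sum of two differences -/
def padd (x y : R × R) : R × R := (o.add x.1 y.1, o.add x.2 y.2)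

/-- product of two differences -/
def pmul (x y : R × R) : R × R :=
  (o.add (o.mul x.1 y.1) (o.mul x.2 y.2), o.add (o.mul x.1 y.2) (o.mul x.2 y.1))

/-- multiple of a difference -/
def psm (c : R) (x : R × R) : R × R := (o.mul c x.1, o.mul c x.2)

/-- zero -/
def pz : R × R := (o.nat 0, o.nat 0)

/-- integer multiple of a number -/
def pp (l : ℤ) (x : R) : R × R := match l with
  | Int.ofNat n => (o.mul (o.nat n) x, o.nat 0)
  | Int.negSucc n => (o.nat 0, o.mul (o.nat (n + 1)) x)

/-- the value of a linear form -/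
def ev1 : List ℤ → List R → R × R
  | l :: L, x :: xs => padd o (pp o l x) (ev1 L xs)
  | _, _ => pz o

/-- the value of a quadratic form -/
def ev2 : List (List ℤ) → List R → R × R
  | q :: Q, x :: xs => padd o (psm o x (ev1 o q (x :: xs))) (ev2 Q xs)
  | _, _ => pz o

/-- the value of a cubic form -/
def ev3 : List (List (List ℤ)) → List R → R × R
  | c :: C, x :: xs => padd o (psm o x (ev2 o c (x :: xs))) (ev3 C xs)
  | _, _ => pz o

/-- combination of forms with nonnegative coefficients -/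
def comb : List ℕ → List (R × R) → R × R
  | 0 :: cs, _ :: Ls => comb cs Ls
  | (c + 1) :: cs, L :: Ls => padd o (psm o (o.nat (c + 1)) L) (comb cs Ls)
  | _, _ => pz o

/-- the quadratic form of a triangular array -/
def comb2 : List (List ℕ) → List (R × R) → R × R
  | [] :: R, _ :: Ls => comb2 R Ls
  | (r :: rs) :: R, L :: Ls => padd o (pmul o L (comb o (r :: rs) (L :: Ls))) (comb2 R Ls)
  | _, _ => pz o

/-- a nonnegative combination of squares -/
def sqs (X : List R) : List (ℕ × List ℤ) → R × R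
  | p :: S => padd o (psm o (o.nat p.1) (pmul o (ev1 o p.2 X) (ev1 o p.2 X))) (sqs X S)
  | [] => pz o

/-- the cubic form of the certificate -/
def comb3 (X : List R) : List (List (List ℕ) × List (ℕ × List ℤ)) → List (R × R) → R × R
  | p :: C, L :: Ls => padd o (pmul o L (padd o (comb2 o p.1 (L :: Ls)) (sqs o X p.2))) (comb3 X C Ls)
  | _, _ => pz o

/-- the values of the linear forms -/
def evs (X : List R) : List (List ℤ) → List (R × R)
  | L :: Ls => ev1 o L X :: evs X Ls
  | [] => []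

end defs

/-- the operations of a commutative semiring -/
def ofR (R : Type) [CommSemiring R] : Ops R := ⟨fun x y => x + y, fun x y => x * y, fun n => (n : R)⟩

/-- the operations of `ℕ` -/
def natOps : Ops ℕ := ⟨Nat.add, Nat.mul, fun n => n⟩

theorem natOps_eq : natOps = ofR ℕ := by
  unfold natOps ofR
  congr 1

/-! ### homomorphisms -/

section hom

variable {R S : Type} [CommSemiring R] [CommSemiring S] (f : R →+* S)

/-- image of a pair -/
def mp (x : R × R) : S × S := (f x.1, f x.2)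

theorem mp_padd (x y : R × R) : mp f (padd (ofR R) x y) = padd (ofR S) (mp f x) (mp f y) := by
  simp [mp, padd, ofR]

theorem mp_pmul (x y : R × R) : mp f (pmul (ofR R) x y) = pmul (ofR S) (mp f x) (mp f y) := by
  simp [mp, pmul, ofR]

theorem mp_psm (c : R) (x : R × R) : mp f (psm (ofR R) c x) = psm (ofR S) (f c) (mp f x) := by
  simp [mp, psm, ofR]

theorem mp_pz : mp f (pz (ofR R)) = pz (ofR S) := by
  simp [mp, pz, ofR]

theorem mp_pp (l : ℤ) (x : R) : mp f (pp (ofR R) l x) = pp (ofR S) l (f x) := by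
  cases l <;> simp [mp, pp, ofR]

theorem mp_ev1 : ∀ (L : List ℤ) (X : List R), mp f (ev1 (ofR R) L X) = ev1 (ofR S) L (X.map f)
  | l :: L, x :: xs => by
      simp only [ev1, List.map_cons, mp_padd, mp_pp, mp_ev1 L xs]
  | [], X => by simp [ev1, mp_pz]
  | l :: L, [] => by simp [ev1, mp_pz]

theorem mp_ev2 : ∀ (L : List (List ℤ)) (X : List R), mp f (ev2 (ofR R) L X) = ev2 (ofR S) L (X.map f)
  | l :: L, x :: xs => by
      simp only [ev2, List.map_cons, mp_padd, mp_psm, mp_ev2 L xs, mp_ev1]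
  | [], X => by simp [ev2, mp_pz]
  | l :: L, [] => by simp [ev2, mp_pz]

theorem mp_ev3 : ∀ (L : List (List (List ℤ))) (X : List R),
    mp f (ev3 (ofR R) L X) = ev3 (ofR S) L (X.map f)
  | l :: L, x :: xs => by
      simp only [ev3, List.map_cons, mp_padd, mp_psm, mp_ev3 L xs, mp_ev2]
  | [], X => by simp [ev3, mp_pz]
  | l :: L, [] => by simp [ev3, mp_pz]

theorem mp_comb : ∀ (cs : List ℕ) (Ls : List (R × R)),
    mp f (comb (ofR R) cs Ls) = comb (ofR S) cs (Ls.map (mp f))
  | 0 :: cs, L :: Ls => by simp only [comb, List.map_cons, mp_comb cs Ls]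
  | (c + 1) :: cs, L :: Ls => by
      simp only [comb, List.map_cons, mp_padd, mp_psm, mp_comb cs Ls]
      simp [ofR]
  | [], Ls => by simp [comb, mp_pz]
  | 0 :: cs, [] => by simp [comb, mp_pz]
  | (c + 1) :: cs, [] => by simp [comb, mp_pz]

theorem mp_comb2 : ∀ (cs : List (List ℕ)) (Ls : List (R × R)),
    mp f (comb2 (ofR R) cs Ls) = comb2 (ofR S) cs (Ls.map (mp f))
  | [] :: cs, L :: Ls => by simp only [comb2, List.map_cons, mp_comb2 cs Ls]
  | (r :: rs) :: cs, L :: Ls => by
      simp only [comb2, List.map_cons, mp_padd, mp_pmul, mp_comb2 cs Ls, mp_comb]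
  | [], Ls => by simp [comb2, mp_pz]
  | [] :: cs, [] => by simp [comb2, mp_pz]
  | (r :: rs) :: cs, [] => by simp [comb2, mp_pz]

theorem mp_sqs (X : List R) : ∀ (S' : List (ℕ × List ℤ)),
    mp f (sqs (ofR R) X S') = sqs (ofR S) (X.map f) S'
  | p :: S' => by
      simp only [sqs, mp_padd, mp_psm, mp_pmul, mp_ev1, mp_sqs X S']
      simp [ofR]
  | [] => by simp [sqs, mp_pz]

theorem mp_comb3 (X : List R) : ∀ (C : List (List (List ℕ) × List (ℕ × List ℤ))) (Ls : List (R × R)),
    mp f (comb3 (ofR R) X C Ls) = comb3 (ofR S) (X.map f) C (Ls.map (mp f))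
  | p :: C, L :: Ls => by
      simp only [comb3, List.map_cons, mp_padd, mp_pmul, mp_comb3 X C Ls, mp_comb2, mp_sqs]
  | [], Ls => by simp [comb3, mp_pz]
  | p :: C, [] => by simp [comb3, mp_pz]

theorem mp_evs (X : List R) : ∀ (Ls : List (List ℤ)),
    (evs (ofR R) X Ls).map (mp f) = evs (ofR S) (X.map f) Ls
  | L :: Ls => by simp only [evs, List.map_cons, mp_ev1, mp_evs X Ls]
  | [] => rfl

end hom

/-! ### real values -/

/-- the value of a pair -/
def dv (x : ℝ × ℝ) : ℝ := x.1 - x.2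

theorem dv_padd (x y : ℝ × ℝ) : dv (padd (ofR ℝ) x y) = dv x + dv y := by
  simp only [dv, padd, ofR]; ring

theorem dv_pmul (x y : ℝ × ℝ) : dv (pmul (ofR ℝ) x y) = dv x * dv y := by
  simp only [dv, pmul, ofR]; ring

theorem dv_psm (c : ℝ) (x : ℝ × ℝ) : dv (psm (ofR ℝ) c x) = c * dv x := by
  simp only [dv, psm, ofR]; ring

theorem dv_pz : dv (pz (ofR ℝ)) = 0 := by
  simp [dv, pz, ofR]

theorem dv_pp (l : ℤ) (x : ℝ) : dv (pp (ofR ℝ) l x) = l * x := by
  cases l with
  | ofNat n => simp [dv, pp, ofR]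
  | negSucc n => simp [dv, pp, ofR]; ring

/-- the value of a linear form -/
def lin : List ℤ → List ℝ → ℝ
  | l :: L, x :: xs => (l : ℝ) * x + lin L xs
  | _, _ => 0

/-- the value of a quadratic form -/
def quad : List (List ℤ) → List ℝ → ℝ
  | q :: Q, x :: xs => x * lin q (x :: xs) + quad Q xs
  | _, _ => 0

/-- the value of a cubic form -/
def cub : List (List (List ℤ)) → List ℝ → ℝ
  | c :: C, x :: xs => x * quad c (x :: xs) + cub C xs
  | _, _ => 0

theorem dv_ev1 : ∀ (L : List ℤ) (X : List ℝ), dv (ev1 (ofR ℝ) L X) = lin L X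
  | l :: L, x :: xs => by simp only [ev1, lin, dv_padd, dv_pp, dv_ev1 L xs]
  | [], X => by simp [ev1, lin, dv_pz]
  | l :: L, [] => by simp [ev1, lin, dv_pz]

theorem dv_ev2 : ∀ (L : List (List ℤ)) (X : List ℝ), dv (ev2 (ofR ℝ) L X) = quad L X
  | l :: L, x :: xs => by simp only [ev2, quad, dv_padd, dv_psm, dv_ev1, dv_ev2 L xs]
  | [], X => by simp [ev2, quad, dv_pz]
  | l :: L, [] => by simp [ev2, quad, dv_pz]

theorem dv_ev3 : ∀ (L : List (List (List ℤ))) (X : List ℝ), dv (ev3 (ofR ℝ) L X) = cub L X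
  | l :: L, x :: xs => by simp only [ev3, cub, dv_padd, dv_psm, dv_ev2, dv_ev3 L xs]
  | [], X => by simp [ev3, cub, dv_pz]
  | l :: L, [] => by simp [ev3, cub, dv_pz]

theorem comb_nonneg : ∀ (cs : List ℕ) (Ls : List (ℝ × ℝ)),
    (∀ x ∈ Ls, 0 ≤ dv x) → 0 ≤ dv (comb (ofR ℝ) cs Ls)
  | 0 :: cs, L :: Ls, h => by
      simp only [comb]
      exact comb_nonneg cs Ls fun M hM => h M (List.mem_cons_of_mem _ hM)
  | (c + 1) :: cs, L :: Ls, h => by
      simp only [comb, dv_padd, dv_psm]
      have h1 := comb_nonneg cs Ls fun M hM => h M (List.mem_cons_of_mem _ hM)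
      have h2 := h L List.mem_cons_self
      have h3 : (0 : ℝ) ≤ (ofR ℝ).nat (c + 1) := Nat.cast_nonneg (c + 1)
      positivity
  | [], Ls, h => by simp [comb, dv_pz]
  | 0 :: cs, [], h => by simp [comb, dv_pz]
  | (c + 1) :: cs, [], h => by simp [comb, dv_pz]

theorem comb2_nonneg : ∀ (R : List (List ℕ)) (Ls : List (ℝ × ℝ)),
    (∀ x ∈ Ls, 0 ≤ dv x) → 0 ≤ dv (comb2 (ofR ℝ) R Ls)
  | [] :: R, L :: Ls, h => by
      simp only [comb2]
      exact comb2_nonneg R Ls fun M hM => h M (List.mem_cons_of_mem _ hM)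
  | (r :: rs) :: R, L :: Ls, h => by
      simp only [comb2, dv_padd, dv_pmul]
      have h1 := comb2_nonneg R Ls fun M hM => h M (List.mem_cons_of_mem _ hM)
      have h2 := h L List.mem_cons_self
      have h3 := comb_nonneg (r :: rs) (L :: Ls) h
      positivity
  | [], Ls, h => by simp [comb2, dv_pz]
  | [] :: R, [], h => by simp [comb2, dv_pz]
  | (r :: rs) :: R, [], h => by simp [comb2, dv_pz]

theorem sqs_nonneg (X : List ℝ) : ∀ (S : List (ℕ × List ℤ)), 0 ≤ dv (sqs (ofR ℝ) X S)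
  | p :: S => by
      simp only [sqs, dv_padd, dv_psm, dv_pmul]
      have h1 := sqs_nonneg X S
      have h3 : (0 : ℝ) ≤ (ofR ℝ).nat p.1 := Nat.cast_nonneg p.1
      have h4 : 0 ≤ dv (ev1 (ofR ℝ) p.2 X) * dv (ev1 (ofR ℝ) p.2 X) := mul_self_nonneg _
      positivity
  | [] => by simp [sqs, dv_pz]

theorem comb3_nonneg (X : List ℝ) : ∀ (C : List (List (List ℕ) × List (ℕ × List ℤ))) (Ls : List (ℝ × ℝ)),
    (∀ x ∈ Ls, 0 ≤ dv x) → 0 ≤ dv (comb3 (ofR ℝ) X C Ls)
  | p :: C, L :: Ls, h => by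
      simp only [comb3, dv_padd, dv_pmul]
      have h1 := comb3_nonneg X C Ls fun M hM => h M (List.mem_cons_of_mem _ hM)
      have h2 := h L List.mem_cons_self
      have h3 := comb2_nonneg p.1 (L :: Ls) h
      have h4 := sqs_nonneg X p.2
      positivity
  | [], Ls, h => by simp [comb3, dv_pz]
  | p :: C, [], h => by simp [comb3, dv_pz]

theorem evs_nonneg (X : List ℝ) : ∀ (Ls : List (List ℤ)), (∀ L ∈ Ls, 0 ≤ lin L X) →
    ∀ x ∈ evs (ofR ℝ) X Ls, 0 ≤ dv x
  | L :: Ls, h, x, hx => by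
      simp only [evs, List.mem_cons] at hx
      rcases hx with rfl | hx
      · rw [dv_ev1]; exact h L List.mem_cons_self
      · exact evs_nonneg X Ls (fun M hM => h M (List.mem_cons_of_mem _ hM)) x hx
  | [], h, x, hx => by simp [evs] at hx

/-! ### homogeneity -/

open MvPolynomial in
/-- both parts are homogeneous of degree `n` -/
def Hom (n : ℕ) (x : MvPolynomial (Fin 10) ℕ × MvPolynomial (Fin 10) ℕ) : Prop :=
  x.1.IsHomogeneous n ∧ x.2.IsHomogeneous n

section homog

abbrev MP := MvPolynomial (Fin 10) ℕ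

theorem nat_hom (n : ℕ) : MvPolynomial.IsHomogeneous ((n : ℕ) : MP) 0 := by
  have := MvPolynomial.isHomogeneous_C (Fin 10) (R := ℕ) n
  simpa using this

theorem Hom.padd {n : ℕ} {x y : MP × MP} (hx : Hom n x) (hy : Hom n y) : Hom n (padd (ofR MP) x y) :=
  ⟨hx.1.add hy.1, hx.2.add hy.2⟩

theorem Hom.pmul {m n : ℕ} {x y : MP × MP} (hx : Hom m x) (hy : Hom n y) :
    Hom (m + n) (pmul (ofR MP) x y) :=
  ⟨(hx.1.mul hy.1).add (hx.2.mul hy.2), (hx.1.mul hy.2).add (hx.2.mul hy.1)⟩

theorem Hom.psm {m n : ℕ} {c : MP} {x : MP × MP} (hc : c.IsHomogeneous m) (hx : Hom n x) :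
    Hom (m + n) (psm (ofR MP) c x) :=
  ⟨hc.mul hx.1, hc.mul hx.2⟩

theorem Hom.psmn {n : ℕ} {c : ℕ} {x : MP × MP} (hx : Hom n x) :
    Hom n (SPC.psm (ofR MP) ((ofR MP).nat c) x) := by
  have := Hom.psm (nat_hom c) hx
  rwa [zero_add] at this

theorem Hom.pz {n : ℕ} : Hom n (pz (ofR MP)) := by
  have h : ((ofR MP).nat 0) = 0 := Nat.cast_zero
  unfold SPC.pz Hom
  rw [h]
  exact ⟨MvPolynomial.isHomogeneous_zero _ _ _, MvPolynomial.isHomogeneous_zero _ _ _⟩

theorem Hom.pp {l : ℤ} {x : MP} (hx : x.IsHomogeneous 1) : Hom 1 (pp (ofR MP) l x) := by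
  have h : ((ofR MP).nat 0) = 0 := Nat.cast_zero
  cases l with
  | ofNat n =>
    refine ⟨?_, ?_⟩
    · have := (nat_hom n).mul hx
      rwa [zero_add] at this
    · simp only [SPC.pp, h]; exact MvPolynomial.isHomogeneous_zero _ _ _
  | negSucc n =>
    refine ⟨?_, ?_⟩
    · simp only [SPC.pp, h]; exact MvPolynomial.isHomogeneous_zero _ _ _
    · have := (nat_hom (n + 1)).mul hx
      rwa [zero_add] at this

theorem hom_ev1 : ∀ (L : List ℤ) (X : List MP), (∀ x ∈ X, x.IsHomogeneous 1) → Hom 1 (ev1 (ofR MP) L X)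
  | l :: L, x :: xs, h => by
      simp only [ev1]
      exact (Hom.pp (h x List.mem_cons_self)).padd
        (hom_ev1 L xs fun y hy => h y (List.mem_cons_of_mem _ hy))
  | [], X, h => by simp only [ev1]; exact Hom.pz
  | l :: L, [], h => by simp only [ev1]; exact Hom.pz

theorem hom_ev2 : ∀ (L : List (List ℤ)) (X : List MP), (∀ x ∈ X, x.IsHomogeneous 1) →
    Hom 2 (ev2 (ofR MP) L X)
  | l :: L, x :: xs, h => by
      simp only [ev2]
      exact (Hom.psm (h x List.mem_cons_self) (hom_ev1 l (x :: xs) h)).padd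
        (hom_ev2 L xs fun y hy => h y (List.mem_cons_of_mem _ hy))
  | [], X, h => by simp only [ev2]; exact Hom.pz
  | l :: L, [], h => by simp only [ev2]; exact Hom.pz

theorem hom_ev3 : ∀ (L : List (List (List ℤ))) (X : List MP), (∀ x ∈ X, x.IsHomogeneous 1) →
    Hom 3 (ev3 (ofR MP) L X)
  | l :: L, x :: xs, h => by
      simp only [ev3]
      exact (Hom.psm (h x List.mem_cons_self) (hom_ev2 l (x :: xs) h)).padd
        (hom_ev3 L xs fun y hy => h y (List.mem_cons_of_mem _ hy))
  | [], X, h => by simp only [ev3]; exact Hom.pz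
  | l :: L, [], h => by simp only [ev3]; exact Hom.pz

theorem hom_comb : ∀ (cs : List ℕ) (Ls : List (MP × MP)), (∀ x ∈ Ls, Hom 1 x) →
    Hom 1 (comb (ofR MP) cs Ls)
  | 0 :: cs, L :: Ls, h => by
      simp only [comb]
      exact hom_comb cs Ls fun M hM => h M (List.mem_cons_of_mem _ hM)
  | (c + 1) :: cs, L :: Ls, h => by
      simp only [comb]
      exact (Hom.psmn (h L List.mem_cons_self)).padd
        (hom_comb cs Ls fun M hM => h M (List.mem_cons_of_mem _ hM))
  | [], Ls, h => by simp only [comb]; exact Hom.pz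
  | 0 :: cs, [], h => by simp only [comb]; exact Hom.pz
  | (c + 1) :: cs, [], h => by simp only [comb]; exact Hom.pz

theorem hom_comb2 : ∀ (R : List (List ℕ)) (Ls : List (MP × MP)), (∀ x ∈ Ls, Hom 1 x) →
    Hom 2 (comb2 (ofR MP) R Ls)
  | [] :: R, L :: Ls, h => by
      simp only [comb2]
      exact hom_comb2 R Ls fun M hM => h M (List.mem_cons_of_mem _ hM)
  | (r :: rs) :: R, L :: Ls, h => by
      simp only [comb2]
      exact ((h L List.mem_cons_self).pmul (hom_comb (r :: rs) (L :: Ls) h)).padd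
        (hom_comb2 R Ls fun M hM => h M (List.mem_cons_of_mem _ hM))
  | [], Ls, h => by simp only [comb2]; exact Hom.pz
  | [] :: R, [], h => by simp only [comb2]; exact Hom.pz
  | (r :: rs) :: R, [], h => by simp only [comb2]; exact Hom.pz

theorem hom_sqs (X : List MP) (hX : ∀ x ∈ X, x.IsHomogeneous 1) : ∀ (S : List (ℕ × List ℤ)),
    Hom 2 (sqs (ofR MP) X S)
  | p :: S => by
      simp only [sqs]
      exact (Hom.psmn ((hom_ev1 p.2 X hX).pmul (hom_ev1 p.2 X hX))).padd (hom_sqs X hX S)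
  | [] => by simp only [sqs]; exact Hom.pz

theorem hom_comb3 (X : List MP) (hX : ∀ x ∈ X, x.IsHomogeneous 1) :
    ∀ (C : List (List (List ℕ) × List (ℕ × List ℤ))) (Ls : List (MP × MP)),
    (∀ x ∈ Ls, Hom 1 x) → Hom 3 (comb3 (ofR MP) X C Ls)
  | p :: C, L :: Ls, h => by
      simp only [comb3]
      exact ((h L List.mem_cons_self).pmul ((hom_comb2 p.1 (L :: Ls) h).padd (hom_sqs X hX p.2))).padd
        (hom_comb3 X hX C Ls fun M hM => h M (List.mem_cons_of_mem _ hM))
  | [], Ls, h => by simp only [comb3]; exact Hom.pz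
  | p :: C, [], h => by simp only [comb3]; exact Hom.pz

theorem hom_evs (X : List MP) (hX : ∀ x ∈ X, x.IsHomogeneous 1) : ∀ (Ls : List (List ℤ)),
    ∀ x ∈ evs (ofR MP) X Ls, Hom 1 x
  | L :: Ls, x, hx => by
      simp only [evs, List.mem_cons] at hx
      rcases hx with rfl | hx
      · exact hom_ev1 L X hX
      · exact hom_evs X hX Ls x hx
  | [], x, hx => by simp [evs] at hx

end homog

/-! ### Kronecker substitution -/

/-- exponents with distinct sums of three terms -/
def ex : Fin 10 → ℕ := ![0, 1, 4, 13, 32, 71, 124, 218, 375, 572]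

/-- the same as a function on `ℕ` -/
def exn (n : ℕ) : ℕ := [0, 1, 4, 13, 32, 71, 124, 218, 375, 572].getD n 0

/-- sorted triples with their sums -/
def trips : List (ℕ × ℕ) :=
  (List.range 10).flatMap fun i => (List.range 10).flatMap fun j => (List.range 10).flatMap fun k =>
    bif Nat.ble i j && Nat.ble j k then [(i + 10 * j + 100 * k, exn i + exn j + exn k)] else []

/-- sums determine triples -/
def tripsOK : Bool :=
  trips.all fun s => trips.all fun t => !(Nat.beq s.2 t.2) || Nat.beq s.1 t.1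

theorem tripsOK_true : tripsOK = true := by decide +kernel

theorem mem_trips {i j k : ℕ} (hij : i ≤ j) (hjk : j ≤ k) (hk : k < 10) :
    (i + 10 * j + 100 * k, exn i + exn j + exn k) ∈ trips := by
  unfold trips
  refine List.mem_flatMap.2 ⟨i, List.mem_range.2 (by omega), ?_⟩
  refine List.mem_flatMap.2 ⟨j, List.mem_range.2 (by omega), ?_⟩
  refine List.mem_flatMap.2 ⟨k, List.mem_range.2 (by omega), ?_⟩
  have h1 : Nat.ble i j = true := by rw [Nat.ble_eq]; exact hij
  have h2 : Nat.ble j k = true := by rw [Nat.ble_eq]; exact hjk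
  rw [h1, h2]
  simp

theorem trips_inj {i j k i' j' k' : ℕ} (hij : i ≤ j) (hjk : j ≤ k) (hk : k < 10)
    (hij' : i' ≤ j') (hjk' : j' ≤ k') (hk' : k' < 10)
    (h : exn i + exn j + exn k = exn i' + exn j' + exn k') : i = i' ∧ j = j' ∧ k = k' := by
  have h1 := tripsOK_true
  unfold tripsOK at h1
  rw [List.all_eq_true] at h1
  have h2 := h1 _ (mem_trips hij hjk hk)
  rw [List.all_eq_true] at h2
  have h3 := h2 _ (mem_trips hij' hjk' hk')
  simp only [Bool.or_eq_true, Bool.not_eq_true'] at h3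
  rcases h3 with h3 | h3
  · rw [h, Nat.beq_refl] at h3
    exact absurd h3 (by simp)
  · have h4 : i + 10 * j + 100 * k = i' + 10 * j' + 100 * k' := Nat.eq_of_beq_eq_true h3
    have a1 : i < 10 := by omega
    have a2 : j < 10 := by omega
    have a3 : i' < 10 := by omega
    have a4 : j' < 10 := by omega
    clear h h1 h2 h3
    have b1 : k = k' := by omega
    subst b1
    have b2 : j = j' := by omega
    subst b2
    exact ⟨by omega, rfl, rfl⟩

theorem ex_eq (i : Fin 10) : ex i = exn i := by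
  fin_cases i <;> rfl

/-- the weight of a monomial -/
def wt (m : Fin 10 →₀ ℕ) : ℕ := ∑ p, ex p * m p

theorem wt_add (m n : Fin 10 →₀ ℕ) : wt (m + n) = wt m + wt n := by
  simp [wt, mul_add, Finset.sum_add_distrib]

theorem wt_single (i : Fin 10) : wt (Finsupp.single i 1) = ex i := by
  unfold wt
  rw [Finset.sum_eq_single i]
  · simp
  · intro b _ hb
    simp [Ne.symm hb]
  · intro h; exact absurd (Finset.mem_univ i) h

theorem deg3 (m : Fin 10 →₀ ℕ) (h : m.degree = 3) : ∃ i j k : Fin 10, i ≤ j ∧ j ≤ k ∧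
    m = Finsupp.single i 1 + Finsupp.single j 1 + Finsupp.single k 1 := by
  set s := Finsupp.toMultiset m with hs
  have hcard : s.card = 3 := by
    rw [hs, Finsupp.card_toMultiset, ← h]
    rfl
  have hlen : (s.sort (· ≤ ·)).length = 3 := by rw [Multiset.length_sort, hcard]
  obtain ⟨i, j, k, hl⟩ := List.length_eq_three.1 hlen
  have hsorted := Multiset.pairwise_sort s (· ≤ ·)
  rw [hl] at hsorted
  have hs2 : s = {i, j, k} := by
    rw [← Multiset.sort_eq s (· ≤ ·), hl]; rfl
  refine ⟨i, j, k, ?_, ?_, ?_⟩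
  · simp at hsorted; tauto
  · simp at hsorted; tauto
  · have h1 : m = Multiset.toFinsupp s := by rw [hs]; simp
    rw [h1, hs2]
    have h2 : ({i, j, k} : Multiset (Fin 10)) = {i} + {j} + {k} := rfl
    rw [h2, map_add, map_add, Multiset.toFinsupp_singleton, Multiset.toFinsupp_singleton,
      Multiset.toFinsupp_singleton]

theorem wt_inj {m n : Fin 10 →₀ ℕ} (hm : m.degree = 3) (hn : n.degree = 3) (h : wt m = wt n) :
    m = n := by
  obtain ⟨i, j, k, hij, hjk, rfl⟩ := deg3 m hm
  obtain ⟨i', j', k', hij', hjk', rfl⟩ := deg3 n hn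
  rw [wt_add, wt_add, wt_add, wt_add, wt_single, wt_single, wt_single, wt_single, wt_single,
    wt_single, ex_eq, ex_eq, ex_eq, ex_eq, ex_eq, ex_eq] at h
  obtain ⟨h1, h2, h3⟩ := trips_inj (Fin.le_def.1 hij) (Fin.le_def.1 hjk) k.2 (Fin.le_def.1 hij')
    (Fin.le_def.1 hjk') k'.2 h
  rw [Fin.ext h1, Fin.ext h2, Fin.ext h3]

theorem wt_lt {m : Fin 10 →₀ ℕ} (hm : m.degree = 3) : wt m < 1717 := by
  obtain ⟨i, j, k, hij, hjk, rfl⟩ := deg3 m hm
  have h : ∀ i : Fin 10, ex i ≤ 572 := by
    intro i; fin_cases i <;> simp [ex]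
  rw [wt_add, wt_add, wt_single, wt_single, wt_single]
  have := h i; have := h j; have := h k
  omega

theorem digits_unique (B : ℕ) : ∀ (n : ℕ) (c d : ℕ → ℕ), (∀ k, c k < B) → (∀ k, d k < B) →
    ∑ k ∈ Finset.range n, c k * B ^ k = ∑ k ∈ Finset.range n, d k * B ^ k → ∀ k < n, c k = d k
  | 0, c, d, hc, hd, h, k, hk => absurd hk (Nat.not_lt_zero k)
  | n + 1, c, d, hc, hd, h, k, hk => by
      have hB : 0 < B := lt_of_le_of_lt (Nat.zero_le _) (hc 0)
      rw [Finset.sum_range_succ', Finset.sum_range_succ'] at h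
      simp only [pow_zero, mul_one, pow_succ, ← mul_assoc] at h
      rw [← Finset.sum_mul, ← Finset.sum_mul] at h
      have h0 : c 0 = d 0 := by
        have h1 := congrArg (· % B) h
        simp only [Nat.add_mod, Nat.mul_mod_left, zero_add, Nat.mod_mod] at h1
        rwa [Nat.mod_eq_of_lt (hc 0), Nat.mod_eq_of_lt (hd 0)] at h1
      rw [h0] at h
      have h2 := Nat.eq_of_mul_eq_mul_right hB (Nat.add_right_cancel h)
      cases k with
      | zero => exact h0
      | succ k =>
        exact digits_unique B n (fun k => c (k + 1)) (fun k => d (k + 1)) (fun k => hc (k + 1))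
          (fun k => hd (k + 1)) h2 k (by omega)

theorem hdeg {P : MP} (hP : P.IsHomogeneous 3) {m : Fin 10 →₀ ℕ} (h : P.coeff m ≠ 0) : m.degree = 3 := by
  rw [Finsupp.degree_eq_weight_one]
  exact hP h

/-- the coefficient of weight `k` -/
noncomputable def co (P : MP) (k : ℕ) : ℕ := ∑ m ∈ P.support.filter (fun m => wt m = k), P.coeff m

theorem eval_one (P : MP) : MvPolynomial.eval (fun _ => 1) P = ∑ m ∈ P.support, P.coeff m := by
  rw [MvPolynomial.eval_eq']
  simp

theorem co_lt {P : MP} {B : ℕ} (h : MvPolynomial.eval (fun _ => 1) P < B) (k : ℕ) : co P k < B := by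
  refine lt_of_le_of_lt ?_ h
  rw [eval_one]
  exact Finset.sum_le_sum_of_subset (Finset.filter_subset _ _)

theorem eval_B {P : MP} (hP : P.IsHomogeneous 3) (B : ℕ) :
    MvPolynomial.eval (fun p => B ^ ex p) P = ∑ k ∈ Finset.range 1717, co P k * B ^ k := by
  rw [MvPolynomial.eval_eq']
  have h1 : ∀ m ∈ P.support, P.coeff m * ∏ i, (B ^ ex i) ^ m i = P.coeff m * B ^ wt m := by
    intro m _
    congr 1
    unfold wt
    rw [← Finset.prod_pow_eq_pow_sum]
    exact Finset.prod_congr rfl fun i _ => by rw [← pow_mul]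
  rw [Finset.sum_congr rfl h1]
  have h2 : ∀ m ∈ P.support, wt m ∈ Finset.range 1717 := by
    intro m hm
    rw [Finset.mem_range]
    exact wt_lt (hdeg hP (MvPolynomial.mem_support_iff.1 hm))
  rw [← Finset.sum_fiberwise_of_maps_to h2]
  refine Finset.sum_congr rfl fun k _ => ?_
  unfold co
  rw [Finset.sum_mul]
  refine Finset.sum_congr rfl fun m hm => ?_
  rw [(Finset.mem_filter.1 hm).2]

theorem coeff_eq {P : MP} (hP : P.IsHomogeneous 3) {m : Fin 10 →₀ ℕ} (hm : m.degree = 3) :
    P.coeff m = co P (wt m) := by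
  unfold co
  have h1 : ∀ n ∈ P.support.filter (fun n => wt n = wt m), n = m := by
    intro n hn
    rw [Finset.mem_filter] at hn
    exact wt_inj (hdeg hP (MvPolynomial.mem_support_iff.1 hn.1)) hm hn.2
  by_cases hms : m ∈ P.support
  · have h2 : P.support.filter (fun n => wt n = wt m) = {m} := by
      ext n
      rw [Finset.mem_singleton]
      constructor
      · exact h1 n
      · rintro rfl
        exact Finset.mem_filter.2 ⟨hms, rfl⟩
    rw [h2, Finset.sum_singleton]
  · have h2 : P.support.filter (fun n => wt n = wt m) = ∅ := by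
      rw [Finset.eq_empty_iff_forall_notMem]
      intro n hn
      have h3 := h1 n hn
      rw [h3] at hn
      exact hms (Finset.mem_filter.1 hn).1
    rw [h2, Finset.sum_empty]
    exact MvPolynomial.notMem_support_iff.1 hms

theorem kron {P Q : MP} (hP : P.IsHomogeneous 3) (hQ : Q.IsHomogeneous 3) {B : ℕ}
    (hP1 : MvPolynomial.eval (fun _ => 1) P < B) (hQ1 : MvPolynomial.eval (fun _ => 1) Q < B)
    (h : MvPolynomial.eval (fun p => B ^ ex p) P = MvPolynomial.eval (fun p => B ^ ex p) Q) : P = Q := by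
  rw [eval_B hP, eval_B hQ] at h
  have h1 := digits_unique B 1717 (co P) (co Q) (co_lt hP1) (co_lt hQ1) h
  ext m
  by_cases hm : m.degree = 3
  · rw [coeff_eq hP hm, coeff_eq hQ hm]
    exact h1 _ (wt_lt hm)
  · have h2 : ∀ R : MP, R.IsHomogeneous 3 → R.coeff m = 0 := by
      intro R hR
      by_contra hne
      exact hm (hdeg hR hne)
    rw [h2 P hP, h2 Q hQ]

/-! ### the check -/

/-- the evaluation point -/
def Xs (B : ℕ) : List ℕ :=
  [Nat.pow B 0, Nat.pow B 1, Nat.pow B 4, Nat.pow B 13, Nat.pow B 32, Nat.pow B 71, Nat.pow B 124,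
    Nat.pow B 218, Nat.pow B 375, Nat.pow B 572]

/-- the two sides of the identity at a point -/
def sides {R : Type} (o : Ops R) (X : List R) (c0 : ℕ) (G : List (List (List ℤ)))
    (C : List (List (List ℕ) × List (ℕ × List ℤ))) (Ls : List (List ℤ)) : R × R :=
  (o.add (comb3 o X C (evs o X Ls)).1 (o.mul (o.nat (c0 + 1)) (ev3 o G X).2),
    o.add (comb3 o X C (evs o X Ls)).2 (o.mul (o.nat (c0 + 1)) (ev3 o G X).1))

/-- the check: `(c0 + 1) * G` is the cubic form of the certificate -/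
def check (K : ℕ) (c0 : ℕ) (G : List (List (List ℤ))) (C : List (List (List ℕ) × List (ℕ × List ℤ)))
    (Ls : List (List ℤ)) : Bool :=
  Nat.beq (sides natOps (Xs (Nat.pow 2 K)) c0 G C Ls).1 (sides natOps (Xs (Nat.pow 2 K)) c0 G C Ls).2 &&
  (Nat.blt (sides natOps (Xs 1) c0 G C Ls).1 (Nat.pow 2 K) &&
    Nat.blt (sides natOps (Xs 1) c0 G C Ls).2 (Nat.pow 2 K))

/-- the variables -/
noncomputable def XP : List MP := List.ofFn fun i : Fin 10 => MvPolynomial.X i

theorem XP_hom : ∀ x ∈ XP, x.IsHomogeneous 1 := by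
  intro x hx
  unfold XP at hx
  rw [List.mem_ofFn] at hx
  obtain ⟨i, rfl⟩ := hx
  exact MvPolynomial.isHomogeneous_X _ _

theorem XP_map {R : Type} [CommSemiring R] (f : MP →+* R) :
    XP.map f = List.ofFn fun i : Fin 10 => f (MvPolynomial.X i) := by
  unfold XP
  rw [List.map_ofFn]
  rfl

theorem mp_sides {R S : Type} [CommSemiring R] [CommSemiring S] (f : R →+* S) (X : List R) (c0 : ℕ)
    (G : List (List (List ℤ))) (C : List (List (List ℕ) × List (ℕ × List ℤ))) (Ls : List (List ℤ)) :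
    mp f (sides (ofR R) X c0 G C Ls) = sides (ofR S) (X.map f) c0 G C Ls := by
  have h1 : mp f (comb3 (ofR R) X C (evs (ofR R) X Ls)) =
      comb3 (ofR S) (X.map f) C (evs (ofR S) (X.map f) Ls) := by
    rw [mp_comb3, mp_evs]
  have h2 := mp_ev3 f G X
  unfold sides
  rw [← h1, ← h2]
  simp [mp, ofR]

set_option exponentiation.threshold 600 in
theorem Xs_eq (B : ℕ) : Xs B = List.ofFn fun i : Fin 10 => B ^ ex i := rfl

theorem sides_nat (B : ℕ) (c0 : ℕ) (G : List (List (List ℤ)))
    (C : List (List (List ℕ) × List (ℕ × List ℤ))) (Ls : List (List ℤ)) :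
    sides natOps (Xs B) c0 G C Ls =
      mp (MvPolynomial.eval fun p => B ^ ex p) (sides (ofR MP) XP c0 G C Ls) := by
  rw [mp_sides, XP_map, Xs_eq, natOps_eq]
  simp

theorem sound (K : ℕ) (c0 : ℕ) (G : List (List (List ℤ))) (C : List (List (List ℕ) × List (ℕ × List ℤ)))
    (Ls : List (List ℤ)) (x : Fin 10 → ℝ) (hL : ∀ L ∈ Ls, 0 ≤ lin L (List.ofFn x))
    (h : check K c0 G C Ls = true) : 0 ≤ cub G (List.ofFn x) := by
  unfold check at h
  rw [Bool.and_eq_true, Bool.and_eq_true] at h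
  obtain ⟨h1, h2, h3⟩ := h
  have h1' := Nat.eq_of_beq_eq_true h1
  have hcomb := hom_comb3 XP XP_hom C (evs (ofR MP) XP Ls) (hom_evs XP XP_hom Ls)
  have hev := hom_ev3 G XP XP_hom
  have hcast : MvPolynomial.IsHomogeneous ((ofR MP).nat (c0 + 1)) 0 := nat_hom (c0 + 1)
  have hs1 : (sides (ofR MP) XP c0 G C Ls).1.IsHomogeneous 3 := by
    have := hcast.mul hev.2
    rw [zero_add] at this
    exact hcomb.1.add this
  have hs2 : (sides (ofR MP) XP c0 G C Ls).2.IsHomogeneous 3 := by
    have := hcast.mul hev.1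
    rw [zero_add] at this
    exact hcomb.2.add this
  have hone : (fun p : Fin 10 => (1 : ℕ) ^ ex p) = fun _ => 1 := by
    funext p; exact one_pow _
  have key : (sides (ofR MP) XP c0 G C Ls).1 = (sides (ofR MP) XP c0 G C Ls).2 := by
    refine kron (B := Nat.pow 2 K) hs1 hs2 ?_ ?_ ?_
    · rw [sides_nat, hone] at h2
      rwa [Nat.blt_eq] at h2
    · rw [sides_nat, hone] at h3
      rwa [Nat.blt_eq] at h3
    · rw [sides_nat] at h1'
      exact h1'
  -- real values
  have hreal := mp_sides (MvPolynomial.eval₂Hom (Nat.castRingHom ℝ) x) XP c0 G C Ls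
  rw [XP_map] at hreal
  simp only [MvPolynomial.eval₂Hom_X'] at hreal
  have h4 : (sides (ofR ℝ) (List.ofFn x) c0 G C Ls).1 = (sides (ofR ℝ) (List.ofFn x) c0 G C Ls).2 := by
    rw [← hreal]
    unfold mp
    rw [key]
  have h5 := comb3_nonneg (List.ofFn x) C (evs (ofR ℝ) (List.ofFn x) Ls)
    (evs_nonneg (List.ofFn x) Ls hL)
  have h6 := dv_ev3 G (List.ofFn x)
  unfold dv at h5 h6
  have h7 : (comb3 (ofR ℝ) (List.ofFn x) C (evs (ofR ℝ) (List.ofFn x) Ls)).1 +
      ((c0 + 1 : ℕ) : ℝ) * (ev3 (ofR ℝ) G (List.ofFn x)).2 =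
      (comb3 (ofR ℝ) (List.ofFn x) C (evs (ofR ℝ) (List.ofFn x) Ls)).2 +
      ((c0 + 1 : ℕ) : ℝ) * (ev3 (ofR ℝ) G (List.ofFn x)).1 := h4
  have h8 : (0 : ℝ) < ((c0 + 1 : ℕ) : ℝ) := by positivity
  rw [← h6]
  by_contra hneg
  rw [not_le] at hneg
  have h9 := mul_neg_of_pos_of_neg h8 hneg
  nlinarith

/-- the nine variables, the constant `1`, and further linear forms -/
def U (rest : List (List ℤ)) : List (List ℤ) :=
  [1] :: [0, 1] :: [0, 0, 1] :: [0, 0, 0, 1] :: [0, 0, 0, 0, 1] :: [0, 0, 0, 0, 0, 1] ::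
  [0, 0, 0, 0, 0, 0, 1] :: [0, 0, 0, 0, 0, 0, 0, 1] :: [0, 0, 0, 0, 0, 0, 0, 0, 1] ::
  [0, 0, 0, 0, 0, 0, 0, 0, 0, 1] :: rest

theorem lin_ten (l0 l1 l2 l3 l4 l5 l6 l7 l8 l9 : ℤ) (a b c x u y v z w : ℝ) :
    lin [l0, l1, l2, l3, l4, l5, l6, l7, l8, l9] [a, b, c, x, u, y, v, z, w, 1] =
      l0 * a + l1 * b + l2 * c + l3 * x + l4 * u + l5 * y + l6 * v + l7 * z + l8 * w + l9 := by
  simp only [lin]; ring

theorem sound10 (K : ℕ) (c0 : ℕ) (G : List (List (List ℤ)))
    (C : List (List (List ℕ) × List (ℕ × List ℤ))) (rest : List (List ℤ)) {a b c x u y v z w : ℝ}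
    (ha : 0 ≤ a) (hb : 0 ≤ b) (hc : 0 ≤ c) (hx : 0 ≤ x) (hu : 0 ≤ u) (hy : 0 ≤ y) (hv : 0 ≤ v)
    (hz : 0 ≤ z) (hw : 0 ≤ w)
    (hL : ∀ L ∈ rest, 0 ≤ lin L [a, b, c, x, u, y, v, z, w, 1])
    (h : check K c0 G C (U rest) = true) : 0 ≤ cub G [a, b, c, x, u, y, v, z, w, 1] := by
  refine sound K c0 G C (U rest) ![a, b, c, x, u, y, v, z, w, 1] ?_ h
  change ∀ L ∈ U rest, 0 ≤ lin L [a, b, c, x, u, y, v, z, w, 1]
  intro L hLm
  unfold U at hLm
  simp only [List.mem_cons] at hLm
  rcases hLm with rfl | rfl | rfl | rfl | rfl | rfl | rfl | rfl | rfl | rfl | hLm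
  · simp only [lin]; simpa using ha
  · simp only [lin]; simpa using hb
  · simp only [lin]; simpa using hc
  · simp only [lin]; simpa using hx
  · simp only [lin]; simpa using hu
  · simp only [lin]; simpa using hy
  · simp only [lin]; simpa using hv
  · simp only [lin]; simpa using hz
  · simp only [lin]; simpa using hw
  · simp only [lin]; simp
  · exact hL L hLm

end Pool.Agent.Helper99.SPC
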