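import Pool.Agent.Helper99.SPC.Check

/-!
# The cubic polynomials of the volume inequalities
-/

set_option autoImplicit false

namespace Pool.Agent.Helper99.SPC

/-- a volume polynomial -/
def GD1 : List (List (List ℤ)) := [[[], [0, 1000, 0, 0, 0, 0, 0, 0, 2000], [0, 0, 0, 0, 0, 0, 0, 2000], [], [], [0, -1000], [], [], [], [4000]], [[], [0, 0, 0, 0, 0, 0, 0, 2000], [], [], [], [], [0, -1000], [], [4000]], [[], [0, -1000], [], [], [], [], [], [4000]], [[], [0, 0, 0, 0, 0, -2000], [0, 0, 0, -1000]], [[], [], [0, -1000]], [[], [0, 0, 0, -2000]], [], [[], [0, -2000]], [], [[587]]]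

theorem goalD1 {a b c x u y v z w : ℝ} (h : 0 ≤ cub GD1 [a, b, c, x, u, y, v, z, w, 1]) :
    (7413/1000:ℝ) ≤ (2+a)*(2+b)*(2+c) - x*y*w - z*u*v - (2+a)*(y*v) - (2+b)*(z*w) - (2+c)*(x*u) := by
  simp only [GD1, cub, quad, lin] at h
  push_cast at h
  linarith only [h]

/-- a volume polynomial -/
def GD2 : List (List (List ℤ)) := [[[], [0, 1000, 0, 0, 0, 0, 0, 0, 2000], [0, 0, 0, 0, 0, 0, 0, 2000], [], [], [0, -1000], [], [], [], [4000]], [[], [0, 0, 0, 0, 0, 0, 0, 2000], [], [], [], [], [0, -1000], [], [4000]], [[], [0, -1000], [], [], [], [], [], [4000]], [[], [0, 0, 0, 0, 0, -2000], [0, 0, 0, 1000]], [[], [], [0, 1000]], [[], [0, 0, 0, -2000]], [], [[], [0, -2000]], [], [[587]]]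

theorem goalD2 {a b c x u y v z w : ℝ} (h : 0 ≤ cub GD2 [a, b, c, x, u, y, v, z, w, 1]) :
    (7413/1000:ℝ) ≤ (2+a)*(2+b)*(2+c) + x*y*w + z*u*v - (2+a)*(y*v) - (2+b)*(z*w) - (2+c)*(x*u) := by
  simp only [GD2, cub, quad, lin] at h
  push_cast at h
  linarith only [h]

/-- a volume polynomial -/
def GD3 : List (List (List ℤ)) := [[[], [0, 1000, 0, 0, 0, 0, 0, 0, 2000], [0, 0, 0, 0, 0, 0, 0, 2000], [], [], [0, 1000], [], [], [], [4000]], [[], [0, 0, 0, 0, 0, 0, 0, 2000], [], [], [], [], [0, -1000], [], [4000]], [[], [0, -1000], [], [], [], [], [], [4000]], [[], [0, 0, 0, 0, 0, -2000], [0, 0, 0, 1000]], [[], [], [0, -1000]], [[], [0, 0, 0, 2000]], [], [[], [0, -2000]], [], [[587]]]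

theorem goalD3 {a b c x u y v z w : ℝ} (h : 0 ≤ cub GD3 [a, b, c, x, u, y, v, z, w, 1]) :
    (7413/1000:ℝ) ≤ (2+a)*(2+b)*(2+c) + x*y*w - z*u*v + (2+a)*(y*v) - (2+b)*(z*w) - (2+c)*(x*u) := by
  simp only [GD3, cub, quad, lin] at h
  push_cast at h
  linarith only [h]

/-- a volume polynomial -/
def GD4 : List (List (List ℤ)) := [[[], [0, 1000, 0, 0, 0, 0, 0, 0, 2000], [0, 0, 0, 0, 0, 0, 0, 2000], [], [], [0, 1000], [], [], [], [4000]], [[], [0, 0, 0, 0, 0, 0, 0, 2000], [], [], [], [], [0, 1000], [], [4000]], [[], [0, -1000], [], [], [], [], [], [4000]], [[], [0, 0, 0, 0, 0, -2000], [0, 0, 0, 1000]], [[], [], [0, 1000]], [[], [0, 0, 0, 2000]], [], [[], [0, 2000]], [], [[587]]]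

theorem goalD4 {a b c x u y v z w : ℝ} (h : 0 ≤ cub GD4 [a, b, c, x, u, y, v, z, w, 1]) :
    (7413/1000:ℝ) ≤ (2+a)*(2+b)*(2+c) + x*y*w + z*u*v + (2+a)*(y*v) + (2+b)*(z*w) - (2+c)*(x*u) := by
  simp only [GD4, cub, quad, lin] at h
  push_cast at h
  linarith only [h]

/-- a volume polynomial -/
def GD5 : List (List (List ℤ)) := [[[], [0, 1000, 0, 0, 0, 0, 0, 0, 2000], [0, 0, 0, 0, 0, 0, 0, 2000], [], [], [0, 1000], [], [], [], [4000]], [[], [0, 0, 0, 0, 0, 0, 0, 2000], [], [], [], [], [0, 1000], [], [4000]], [[], [0, -1000], [], [], [], [], [], [4000]], [[], [0, 0, 0, 0, 0, -2000], [0, 0, 0, -1000]], [[], [], [0, -1000]], [[], [0, 0, 0, 2000]], [], [[], [0, 2000]], [], [[587]]]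

theorem goalD5 {a b c x u y v z w : ℝ} (h : 0 ≤ cub GD5 [a, b, c, x, u, y, v, z, w, 1]) :
    (7413/1000:ℝ) ≤ (2+a)*(2+b)*(2+c) - x*y*w - z*u*v + (2+a)*(y*v) + (2+b)*(z*w) - (2+c)*(x*u) := by
  simp only [GD5, cub, quad, lin] at h
  push_cast at h
  linarith only [h]

/-- a volume polynomial -/
def GD6 : List (List (List ℤ)) := [[[], [0, 1000, 0, 0, 0, 0, 0, 0, 2000], [0, 0, 0, 0, 0, 0, 0, 2000], [], [], [0, 1000], [], [], [], [4000]], [[], [0, 0, 0, 0, 0, 0, 0, 2000], [], [], [], [], [0, 1000], [], [4000]], [[], [0, 1000], [], [], [], [], [], [4000]], [[], [0, 0, 0, 0, 0, 2000], [0, 0, 0, -1000]], [[], [], [0, 1000]], [[], [0, 0, 0, 2000]], [], [[], [0, 2000]], [], [[587]]]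

theorem goalD6 {a b c x u y v z w : ℝ} (h : 0 ≤ cub GD6 [a, b, c, x, u, y, v, z, w, 1]) :
    (7413/1000:ℝ) ≤ (2+a)*(2+b)*(2+c) - x*y*w + z*u*v + (2+a)*(y*v) + (2+b)*(z*w) + (2+c)*(x*u) := by
  simp only [GD6, cub, quad, lin] at h
  push_cast at h
  linarith only [h]

/-- a volume polynomial -/
def GT1 : List (List (List ℤ)) := [[[], [0, 50, 0, 0, 0, 0, 0, 0, 100], [0, 0, 0, 0, 0, 0, 0, 100], [], [], [0, -50], [], [], [], [200]], [[], [0, 0, 0, 0, 0, 0, 0, 100], [], [], [], [], [0, -50], [], [200]], [[], [0, -50], [], [], [], [], [], [200]], [[], [0, 0, 0, 0, 0, -100], [0, 0, 0, -50]], [[], [], [0, -50]], [[], [0, 0, 0, -100]], [], [[], [0, -100]], [], [[37]]]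

theorem goalT1 {a b c x u y v z w : ℝ} (h : 0 ≤ cub GT1 [a, b, c, x, u, y, v, z, w, 1]) :
    (363/50:ℝ) ≤ (2+a)*(2+b)*(2+c) - x*y*w - z*u*v - (2+a)*(y*v) - (2+b)*(z*w) - (2+c)*(x*u) := by
  simp only [GT1, cub, quad, lin] at h
  push_cast at h
  linarith only [h]

/-- a volume polynomial -/
def GT2 : List (List (List ℤ)) := [[[], [0, 50, 0, 0, 0, 0, 0, 0, 100], [0, 0, 0, 0, 0, 0, 0, 100], [], [], [0, -50], [], [], [], [200]], [[], [0, 0, 0, 0, 0, 0, 0, 100], [], [], [], [], [0, -50], [], [200]], [[], [0, -50], [], [], [], [], [], [200]], [[], [0, 0, 0, 0, 0, -100], [0, 0, 0, 50]], [[], [], [0, 50]], [[], [0, 0, 0, -100]], [], [[], [0, -100]], [], [[37]]]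

theorem goalT2 {a b c x u y v z w : ℝ} (h : 0 ≤ cub GT2 [a, b, c, x, u, y, v, z, w, 1]) :
    (363/50:ℝ) ≤ (2+a)*(2+b)*(2+c) + x*y*w + z*u*v - (2+a)*(y*v) - (2+b)*(z*w) - (2+c)*(x*u) := by
  simp only [GT2, cub, quad, lin] at h
  push_cast at h
  linarith only [h]

/-- a volume polynomial -/
def GT3 : List (List (List ℤ)) := [[[], [0, 50, 0, 0, 0, 0, 0, 0, 100], [0, 0, 0, 0, 0, 0, 0, 100], [], [], [0, 50], [], [], [], [200]], [[], [0, 0, 0, 0, 0, 0, 0, 100], [], [], [], [], [0, -50], [], [200]], [[], [0, -50], [], [], [], [], [], [200]], [[], [0, 0, 0, 0, 0, -100], [0, 0, 0, 50]], [[], [], [0, -50]], [[], [0, 0, 0, 100]], [], [[], [0, -100]], [], [[37]]]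

theorem goalT3 {a b c x u y v z w : ℝ} (h : 0 ≤ cub GT3 [a, b, c, x, u, y, v, z, w, 1]) :
    (363/50:ℝ) ≤ (2+a)*(2+b)*(2+c) + x*y*w - z*u*v + (2+a)*(y*v) - (2+b)*(z*w) - (2+c)*(x*u) := by
  simp only [GT3, cub, quad, lin] at h
  push_cast at h
  linarith only [h]

/-- a volume polynomial -/
def GT4 : List (List (List ℤ)) := [[[], [0, 50, 0, 0, 0, 0, 0, 0, 100], [0, 0, 0, 0, 0, 0, 0, 100], [], [], [0, 50], [], [], [], [200]], [[], [0, 0, 0, 0, 0, 0, 0, 100], [], [], [], [], [0, 50], [], [200]], [[], [0, -50], [], [], [], [], [], [200]], [[], [0, 0, 0, 0, 0, -100], [0, 0, 0, 50]], [[], [], [0, 50]], [[], [0, 0, 0, 100]], [], [[], [0, 100]], [], [[37]]]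

theorem goalT4 {a b c x u y v z w : ℝ} (h : 0 ≤ cub GT4 [a, b, c, x, u, y, v, z, w, 1]) :
    (363/50:ℝ) ≤ (2+a)*(2+b)*(2+c) + x*y*w + z*u*v + (2+a)*(y*v) + (2+b)*(z*w) - (2+c)*(x*u) := by
  simp only [GT4, cub, quad, lin] at h
  push_cast at h
  linarith only [h]

/-- a volume polynomial -/
def GT5 : List (List (List ℤ)) := [[[], [0, 50, 0, 0, 0, 0, 0, 0, 100], [0, 0, 0, 0, 0, 0, 0, 100], [], [], [0, 50], [], [], [], [200]], [[], [0, 0, 0, 0, 0, 0, 0, 100], [], [], [], [], [0, 50], [], [200]], [[], [0, -50], [], [], [], [], [], [200]], [[], [0, 0, 0, 0, 0, -100], [0, 0, 0, -50]], [[], [], [0, -50]], [[], [0, 0, 0, 100]], [], [[], [0, 100]], [], [[37]]]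

theorem goalT5 {a b c x u y v z w : ℝ} (h : 0 ≤ cub GT5 [a, b, c, x, u, y, v, z, w, 1]) :
    (363/50:ℝ) ≤ (2+a)*(2+b)*(2+c) - x*y*w - z*u*v + (2+a)*(y*v) + (2+b)*(z*w) - (2+c)*(x*u) := by
  simp only [GT5, cub, quad, lin] at h
  push_cast at h
  linarith only [h]

/-- a volume polynomial -/
def GT6 : List (List (List ℤ)) := [[[], [0, 50, 0, 0, 0, 0, 0, 0, 100], [0, 0, 0, 0, 0, 0, 0, 100], [], [], [0, 50], [], [], [], [200]], [[], [0, 0, 0, 0, 0, 0, 0, 100], [], [], [], [], [0, 50], [], [200]], [[], [0, 50], [], [], [], [], [], [200]], [[], [0, 0, 0, 0, 0, 100], [0, 0, 0, -50]], [[], [], [0, 50]], [[], [0, 0, 0, 100]], [], [[], [0, 100]], [], [[37]]]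

theorem goalT6 {a b c x u y v z w : ℝ} (h : 0 ≤ cub GT6 [a, b, c, x, u, y, v, z, w, 1]) :
    (363/50:ℝ) ≤ (2+a)*(2+b)*(2+c) - x*y*w + z*u*v + (2+a)*(y*v) + (2+b)*(z*w) + (2+c)*(x*u) := by
  simp only [GT6, cub, quad, lin] at h
  push_cast at h
  linarith only [h]

end Pool.Agent.Helper99.SPC
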