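import Pool.Agent.Helper99.SPC.Check

/-!
# Kernel-evaluated case trees of linear arithmetic

A finite list of linear inequalities and of disjunctions of linear inequalities in nine variables is
refuted by a tree of case distinctions with Farkas certificates at the leaves. The linear identities
are checked by Kronecker substitution as in `Check`.
-/

set_option autoImplicit false

namespace Pool.Agent.Helper99.SPC

/-- Kronecker substitution for linear forms -/
theorem kron1 {P Q : MP} (hP : P.IsHomogeneous 1) (hQ : Q.IsHomogeneous 1) {B : ℕ}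
    (hP1 : MvPolynomial.eval (fun _ => 1) P < B) (hQ1 : MvPolynomial.eval (fun _ => 1) Q < B)
    (h : MvPolynomial.eval (fun p => B ^ ex p) P = MvPolynomial.eval (fun p => B ^ ex p) Q) :
    P * MvPolynomial.X 9 ^ 2 = Q * MvPolynomial.X 9 ^ 2 := by
  have hX : MvPolynomial.IsHomogeneous ((MvPolynomial.X 9 : MP) ^ 2) 2 :=
    MvPolynomial.isHomogeneous_X_pow 9 2
  refine kron (B := B) (hP.mul hX) (hQ.mul hX) ?_ ?_ ?_
  · simpa using hP1
  · simpa using hQ1
  · rw [map_mul, map_mul, h]

/-- a constraint: a linear form, with `true` if it is positive and `false` if it is nonnegative -/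
abbrev Con := Bool × List ℤ

/-- the constraint holds -/
def Con.holds (x : List ℝ) (c : Con) : Prop := 0 ≤ lin c.2 x ∧ (c.1 = true → 0 < lin c.2 x)

/-- a strict constraint is used -/
def useStrict : List ℕ → List Con → Bool
  | (_ + 1) :: cs, c :: st => c.1 || useStrict cs st
  | 0 :: cs, _ :: st => useStrict cs st
  | _, _ => false

/-- the forms of the constraints -/
def forms : List Con → List (List ℤ)
  | c :: st => c.2 :: forms st
  | [] => []

/-- the two sides of the linear identity -/
def lsides {R : Type} (o : Ops R) (X : List R) (x9 : R) (cs : List ℕ) (C : ℕ) (st : List Con) : R × R :=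
  (o.add (comb o cs (evs o X (forms st))).1 (o.mul (o.nat C) x9), (comb o cs (evs o X (forms st))).2)

/-- the check of a Farkas certificate -/
def leafOK (K : ℕ) (cs : List ℕ) (C : ℕ) (st : List Con) : Bool :=
  (Nat.beq (lsides natOps (Xs (Nat.pow 2 K)) (Nat.pow (Nat.pow 2 K) 572) cs C st).1
    (lsides natOps (Xs (Nat.pow 2 K)) (Nat.pow (Nat.pow 2 K) 572) cs C st).2 &&
  (Nat.blt (lsides natOps (Xs 1) 1 cs C st).1 (Nat.pow 2 K) &&
    Nat.blt (lsides natOps (Xs 1) 1 cs C st).2 (Nat.pow 2 K))) &&
  (Nat.blt 0 C || useStrict cs st)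

theorem mp_lsides {R S : Type} [CommSemiring R] [CommSemiring S] (f : R →+* S) (X : List R) (x9 : R)
    (cs : List ℕ) (C : ℕ) (st : List Con) :
    mp f (lsides (ofR R) X x9 cs C st) = lsides (ofR S) (X.map f) (f x9) cs C st := by
  have h1 : mp f (comb (ofR R) cs (evs (ofR R) X (forms st))) =
      comb (ofR S) cs (evs (ofR S) (X.map f) (forms st)) := by
    rw [mp_comb, mp_evs]
  unfold lsides
  rw [← h1]
  simp [mp, ofR]

set_option exponentiation.threshold 600 in
theorem lsides_nat (B : ℕ) (cs : List ℕ) (C : ℕ) (st : List Con) :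
    lsides natOps (Xs B) (B ^ 572) cs C st =
      mp (MvPolynomial.eval fun p => B ^ ex p) (lsides (ofR MP) XP (MvPolynomial.X 9) cs C st) := by
  rw [mp_lsides, XP_map, Xs_eq, natOps_eq]
  have : ex 9 = 572 := rfl
  simp [this]

theorem comb_pos : ∀ (cs : List ℕ) (st : List Con) (x : List ℝ), (∀ c ∈ st, c.holds x) →
    useStrict cs st = true → 0 < dv (comb (ofR ℝ) cs (evs (ofR ℝ) x (forms st)))
  | 0 :: cs, c :: st, x, h, hs => by
      simp only [useStrict] at hs
      simp only [forms, evs, comb]
      exact comb_pos cs st x (fun M hM => h M (List.mem_cons_of_mem _ hM)) hs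
  | (n + 1) :: cs, c :: st, x, h, hs => by
      simp only [useStrict, Bool.or_eq_true] at hs
      simp only [forms, evs, comb, dv_padd, dv_psm, dv_ev1]
      have h0 := h c List.mem_cons_self
      have h3 : (0 : ℝ) < (ofR ℝ).nat (n + 1) := Nat.cast_pos.2 (Nat.succ_pos n)
      rcases hs with hs | hs
      · have h1 : 0 < lin c.2 x := h0.2 hs
        have h2 : 0 ≤ dv (comb (ofR ℝ) cs (evs (ofR ℝ) x (forms st))) := by
          refine comb_nonneg cs _ (evs_nonneg x _ ?_)
          intro L hL
          have : ∃ d ∈ st, d.2 = L := by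
            clear h hs h0 h1 h3
            induction st with
            | nil => simp [forms] at hL
            | cons d st ih =>
              simp only [forms, List.mem_cons] at hL
              rcases hL with rfl | hL
              · exact ⟨d, List.mem_cons_self, rfl⟩
              · obtain ⟨e, he, he2⟩ := ih hL
                exact ⟨e, List.mem_cons_of_mem _ he, he2⟩
          obtain ⟨d, hd, rfl⟩ := this
          exact (h d (List.mem_cons_of_mem _ hd)).1
        have := mul_pos h3 h1
        linarith
      · have h2 := comb_pos cs st x (fun M hM => h M (List.mem_cons_of_mem _ hM)) hs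
        have := mul_nonneg h3.le h0.1
        linarith
  | [], st, x, h, hs => by simp [useStrict] at hs
  | 0 :: cs, [], x, h, hs => by simp [useStrict] at hs
  | (n + 1) :: cs, [], x, h, hs => by simp [useStrict] at hs

theorem mem_forms : ∀ {st : List Con} {L : List ℤ}, L ∈ forms st → ∃ d ∈ st, d.2 = L
  | [], L, h => by simp [forms] at h
  | d :: st, L, h => by
      simp only [forms, List.mem_cons] at h
      rcases h with rfl | h
      · exact ⟨d, List.mem_cons_self, rfl⟩
      · obtain ⟨e, he, he2⟩ := mem_forms h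
        exact ⟨e, List.mem_cons_of_mem _ he, he2⟩

theorem leafOK_sound {K : ℕ} {cs : List ℕ} {C : ℕ} {st : List Con} (x : Fin 10 → ℝ) (hx : x 9 = 1)
    (hst : ∀ c ∈ st, c.holds (List.ofFn x)) (h : leafOK K cs C st = true) : False := by
  unfold leafOK at h
  simp only [Bool.and_eq_true] at h
  obtain ⟨⟨h1, h2, h3⟩, h4⟩ := h
  have h1' := Nat.eq_of_beq_eq_true h1
  have hcomb := hom_comb cs (evs (ofR MP) XP (forms st)) (hom_evs XP XP_hom (forms st))
  have hs1 : (lsides (ofR MP) XP (MvPolynomial.X 9) cs C st).1.IsHomogeneous 1 := by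
    have := (nat_hom C).mul (MvPolynomial.isHomogeneous_X ℕ (9 : Fin 10))
    rw [zero_add] at this
    exact hcomb.1.add this
  have hs2 : (lsides (ofR MP) XP (MvPolynomial.X 9) cs C st).2.IsHomogeneous 1 := hcomb.2
  have hone : (fun p : Fin 10 => (1 : ℕ) ^ ex p) = fun _ => 1 := by
    funext p; exact one_pow _
  have h19 : (1 : ℕ) = 1 ^ 572 := (one_pow _).symm
  have key := kron1 (B := Nat.pow 2 K) hs1 hs2 (by
      have h5 := h2
      rw [Nat.blt_eq] at h5
      have h6 := lsides_nat 1 cs C st
      rw [hone, one_pow] at h6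
      rw [h6] at h5
      exact h5) (by
      have h5 := h3
      rw [Nat.blt_eq] at h5
      have h6 := lsides_nat 1 cs C st
      rw [hone, one_pow] at h6
      rw [h6] at h5
      exact h5) (by
      have h6 := lsides_nat (Nat.pow 2 K) cs C st
      have h7 : Nat.pow (Nat.pow 2 K) 572 = (Nat.pow 2 K) ^ 572 := rfl
      rw [h7, h6] at h1'
      exact h1')
  have hreal := mp_lsides (MvPolynomial.eval₂Hom (Nat.castRingHom ℝ) x) XP (MvPolynomial.X 9) cs C st
  rw [XP_map] at hreal
  simp only [MvPolynomial.eval₂Hom_X'] at hreal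
  have h5 := congrArg (MvPolynomial.eval₂Hom (Nat.castRingHom ℝ) x) key
  rw [map_mul, map_mul, map_pow, MvPolynomial.eval₂Hom_X', hx, one_pow, mul_one, mul_one] at h5
  have h6 : (lsides (ofR ℝ) (List.ofFn x) 1 cs C st).1 = (lsides (ofR ℝ) (List.ofFn x) 1 cs C st).2 := by
    rw [← hx, ← hreal]
    exact h5
  have h7 : (comb (ofR ℝ) cs (evs (ofR ℝ) (List.ofFn x) (forms st))).1 + (C : ℝ) * 1 =
      (comb (ofR ℝ) cs (evs (ofR ℝ) (List.ofFn x) (forms st))).2 := h6
  rw [Bool.or_eq_true] at h4
  rcases h4 with h4 | h4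
  · rw [Nat.blt_eq] at h4
    have h8 : (0 : ℝ) < C := Nat.cast_pos.2 h4
    have h9 : 0 ≤ dv (comb (ofR ℝ) cs (evs (ofR ℝ) (List.ofFn x) (forms st))) := by
      refine comb_nonneg cs _ (evs_nonneg _ _ ?_)
      intro L hL
      obtain ⟨d, hd, rfl⟩ := mem_forms hL
      exact (hst d hd).1
    unfold dv at h9
    linarith
  · have h9 := comb_pos cs st (List.ofFn x) hst h4
    have h8 : (0 : ℝ) ≤ C := Nat.cast_nonneg C
    unfold dv at h9
    linarith

/-- trees of case distinctions -/
inductive T : Type where
  | leaf (cs : List ℕ) (C : ℕ) : T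
  | node (k : ℕ) (kids : T) : T
  | cons (t : T) (ts : T) : T
  | nil : T

/-- the tree is not a list of trees -/
def T.isTree : T → Bool
  | .leaf _ _ => true
  | .node _ _ => true
  | .cons _ _ => false
  | .nil => false

/-- the check of a tree -/
def T.chk (K : ℕ) (D : List (List (List ℤ))) : T → List (List ℤ) → List Con → Bool
  | .leaf cs C, _, st => leafOK K cs C st
  | .node k kids, _, st => kids.chk K D (D.getD k []) st && (!kids.isTree && Nat.blt k D.length)
  | .cons t ts, a :: alts, st => (t.isTree && t.chk K D [] ((false, a) :: st)) && ts.chk K D alts st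
  | .cons _ _, [], _ => true
  | .nil, [], _ => true
  | .nil, _ :: _, _ => false

theorem T.chk_sound (K : ℕ) (D : List (List (List ℤ))) (x : Fin 10 → ℝ) (hx : x 9 = 1)
    (hD : ∀ E ∈ D, ∃ a ∈ E, 0 ≤ lin a (List.ofFn x)) :
    ∀ (t : T) (alts : List (List ℤ)) (st : List Con), (∀ c ∈ st, c.holds (List.ofFn x)) →
      t.chk K D alts st = true → (t.isTree = true → False) ∧
        (t.isTree = false → ∀ a ∈ alts, ¬ 0 ≤ lin a (List.ofFn x))
  | .leaf cs C, alts, st, hst, h => by
      refine ⟨fun _ => leafOK_sound x hx hst h, fun hf => ?_⟩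
      exact absurd hf (by simp [T.isTree])
  | .node k kids, alts, st, hst, h => by
      refine ⟨fun _ => ?_, fun hf => absurd hf (by simp [T.isTree])⟩
      simp only [T.chk, Bool.and_eq_true, Bool.not_eq_true'] at h
      have h1 := (T.chk_sound K D x hx hD kids _ st hst h.1).2 h.2.1
      have hk : k < D.length := by
        have := h.2.2
        rwa [Nat.blt_eq] at this
      have h2 : D.getD k [] ∈ D := by
        rw [List.getD_eq_getElem _ _ hk]
        exact List.getElem_mem hk
      obtain ⟨a, ha, ha2⟩ := hD _ h2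
      exact h1 a ha ha2
  | .cons t ts, a :: alts, st, hst, h => by
      refine ⟨fun hf => absurd hf (by simp [T.isTree]), fun _ b hb hb2 => ?_⟩
      simp only [T.chk, Bool.and_eq_true] at h
      rcases List.mem_cons.1 hb with rfl | hb
      · refine (T.chk_sound K D x hx hD t [] _ ?_ h.1.2).1 h.1.1
        intro c hc
        rcases List.mem_cons.1 hc with rfl | hc
        · exact ⟨hb2, fun hf => absurd hf (by simp)⟩
        · exact hst c hc
      · by_cases hts : ts.isTree = true
        · exact (T.chk_sound K D x hx hD ts alts st hst h.2).1 hts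
        · exact (T.chk_sound K D x hx hD ts alts st hst h.2).2 (by simpa using hts) b hb hb2
  | .cons _ _, [], st, hst, h => by
      refine ⟨fun hf => absurd hf (by simp [T.isTree]), fun _ b hb => absurd hb (by simp)⟩
  | .nil, [], st, hst, h => by
      refine ⟨fun hf => absurd hf (by simp [T.isTree]), fun _ b hb => absurd hb (by simp)⟩
  | .nil, _ :: _, st, hst, h => by simp [T.chk] at h

/-- soundness of the refutation -/
theorem refute (K : ℕ) (D : List (List (List ℤ))) (t : T) (st : List Con) {a b c x u y v z w : ℝ}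
    (hst : ∀ p ∈ st, Con.holds [a, b, c, x, u, y, v, z, w, 1] p)
    (hD : ∀ E ∈ D, ∃ f ∈ E, 0 ≤ lin f [a, b, c, x, u, y, v, z, w, 1])
    (h : (t.isTree && t.chk K D [] st) = true) : False := by
  rw [Bool.and_eq_true] at h
  exact (T.chk_sound K D ![a, b, c, x, u, y, v, z, w, 1] rfl hD t [] st hst h.2).1 h.1

end Pool.Agent.Helper99.SPC
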